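import Mathlib

set_option autoImplicit false
set_option linter.unusedSectionVars false
set_option linter.style.haveILetI false

/-!
Algebraically independent selections and derivations of the real field.
-/

namespace Pool.Agent.H288Z.Der

open Cardinal

/-- Outside the algebraic closure of a small set, every set of size continuum has a point. -/
theorem exists_transc (s P : Set ℝ) (hs : #s < 𝔠) (hP : #P = 𝔠) :
    ∃ x ∈ P, Transcendental (Algebra.adjoin ℚ s) x := by
  by_contra hcon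
  push Not at hcon
  have h1 : #P ≤ #{x : ℝ // IsAlgebraic (Algebra.adjoin ℚ s) x} := by
    refine mk_le_of_injective (f := fun x : P => ⟨x.1, not_not.mp (hcon x.1 x.2)⟩) ?_
    intro a b h
    exact Subtype.ext (Subtype.mk.inj h)
  have h2 := Algebraic.cardinalMk_le_max (Algebra.adjoin ℚ s) ℝ
  have h3 := Algebra.cardinalMk_adjoin_le ℚ s
  have h4 : #(Algebra.adjoin ℚ s) < 𝔠 := by
    refine lt_of_le_of_lt h3 ?_
    rw [mk_eq_aleph0 ℚ]
    exact max_lt (max_lt aleph0_lt_continuum hs) aleph0_lt_continuum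
  have h5 := lt_of_le_of_lt (h1.trans h2) (max_lt h4 aleph0_lt_continuum)
  rw [hP] at h5
  exact lt_irrefl _ h5

/-- Algebraically independent selection from at most continuum many sets of size continuum. -/
theorem exists_indep {J : Type} (hJ : #J ≤ 𝔠) (P : J → Set ℝ) (hP : ∀ j, #(P j) = 𝔠) :
    ∃ b : J → ℝ, (∀ j, b j ∈ P j) ∧ AlgebraicIndependent ℚ b := by
  classical
  obtain ⟨_, _, hord⟩ := exists_ord_eq_type_lt J
  have step : ∀ (j : J) (g : ∀ i, i < j → ℝ), ∃ x ∈ P j,
      Transcendental (Algebra.adjoin ℚ (Set.range fun i : Set.Iio j => g i.1 i.2)) x := by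
    intro j g
    refine exists_transc _ _ (lt_of_le_of_lt mk_range_le ?_) (hP j)
    exact lt_of_lt_of_le (mk_Iio_lt j hord) hJ
  choose F hF1 hF2 using step
  let b : J → ℝ := (wellFounded_lt (α := J)).fix F
  have hb : ∀ j, b j = F j (fun i _ => b i) := fun j => WellFounded.fix_eq _ F j
  have hb2 : ∀ j, Transcendental (Algebra.adjoin ℚ (b '' Set.Iio j)) (b j) := by
    intro j
    have h := hF2 j (fun i _ => b i)
    rw [← hb j] at h
    rwa [Set.image_eq_range]
  refine ⟨b, fun j => by rw [hb j]; exact hF1 j _, ?_⟩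
  have key : ∀ t : Finset J, AlgebraicIndepOn ℚ b (t : Set J) := by
    intro t
    induction t using Finset.induction_on_max with
    | empty =>
      rw [Finset.coe_empty]
      exact algebraicIndependent_empty_type
    | insert a s has ih =>
      rw [Finset.coe_insert]
      refine ih.insert ((hb2 a).of_tower_top_of_subalgebra_le (Algebra.adjoin_mono ?_))
      exact Set.image_mono fun x hx => has x hx
  refine algebraicIndependent_of_finite_type fun t ht => ?_
  have := key ht.toFinset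
  rwa [ht.coe_toFinset] at this

theorem lift_gen {R A B : Type} [CommRing R] [CommRing A] [CommRing B] [Algebra R A]
    [Algebra.FormallySmooth R A] (φ : R →+* B) (π : B →+* A) (hπ : Function.Surjective π)
    (hnil : IsNilpotent (RingHom.ker π)) (hc : π.comp φ = algebraMap R A) :
    ∃ σ : A →+* B, (∀ a, π (σ a) = a) ∧ ∀ r, σ (algebraMap R A r) = φ r := by
  letI : Algebra R B := φ.toAlgebra
  let π' : B →ₐ[R] A := ⟨π, fun r => congrArg (fun f : R →+* A => f r) hc⟩
  let σ := Algebra.FormallySmooth.liftOfSurjective (AlgHom.id R A) π' hπ hnil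
  refine ⟨σ.toRingHom, fun a => ?_, fun r => σ.commutes r⟩
  exact Algebra.FormallySmooth.liftOfSurjective_apply (AlgHom.id R A) π' hπ hnil a

open scoped IntermediateField.algebraAdjoinAdjoin in
theorem exists_der_basis {ι : Type} (x : ι → ℝ) (hx : IsTranscendenceBasis ℚ x) (δ : ι → ℝ) :
    ∃ D : ℝ →+ ℝ, (∀ a b, D (a * b) = a * D b + D a * b) ∧ ∀ i, D (x i) = δ i := by
  have h1 : Algebra.FormallySmooth (Algebra.adjoin ℚ (Set.range x))
      (IntermediateField.adjoin ℚ (Set.range x)) := .of_isLocalization (nonZeroDivisors _)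
  have h2 := hx.isAlgebraic_field
  have h3 : Algebra.FormallyEtale (IntermediateField.adjoin ℚ (Set.range x)) ℝ :=
    Algebra.FormallyEtale.of_isSeparable _ ℝ
  have h4 : Algebra.FormallySmooth (Algebra.adjoin ℚ (Set.range x)) ℝ :=
    .comp _ (IntermediateField.adjoin ℚ (Set.range x)) _
  let ψ : MvPolynomial ι ℚ →ₐ[ℚ] TrivSqZeroExt ℝ ℝ :=
    MvPolynomial.aeval fun i => TrivSqZeroExt.inl (x i) + TrivSqZeroExt.inr (δ i)
  let φ : Algebra.adjoin ℚ (Set.range x) →ₐ[ℚ] TrivSqZeroExt ℝ ℝ :=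
    ψ.comp hx.1.aevalEquiv.symm.toAlgHom
  let π : TrivSqZeroExt ℝ ℝ →ₐ[ℚ] ℝ := TrivSqZeroExt.fstHom ℚ ℝ ℝ
  have hφ : ∀ i, φ ⟨x i, Algebra.subset_adjoin ⟨i, rfl⟩⟩ =
      TrivSqZeroExt.inl (x i) + TrivSqZeroExt.inr (δ i) := by
    intro i
    have : hx.1.aevalEquiv.symm ⟨x i, Algebra.subset_adjoin ⟨i, rfl⟩⟩ = MvPolynomial.X i := by
      rw [AlgEquiv.symm_apply_eq]
      apply Subtype.ext
      have := hx.1.algebraMap_aevalEquiv (MvPolynomial.X i)
      rw [MvPolynomial.aeval_X] at this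
      exact this.symm
    show ψ (hx.1.aevalEquiv.symm _) = _
    rw [this]
    exact MvPolynomial.aeval_X _ i
  have hc : π.comp φ = (Algebra.adjoin ℚ (Set.range x)).val := by
    apply AlgHom.adjoin_ext
    rintro _ ⟨i, rfl⟩
    show π (φ _) = x i
    rw [hφ]
    simp [π]
  obtain ⟨σ, hσ1, hσ2⟩ := lift_gen (A := ℝ) φ.toRingHom π.toRingHom
    (fun a => ⟨TrivSqZeroExt.inl a, rfl⟩) ⟨2, TrivSqZeroExt.kerIdeal_sq ℝ ℝ⟩
    (congrArg AlgHom.toRingHom hc)
  have hf : ∀ a, (σ a).fst = a := hσ1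
  refine ⟨⟨⟨fun a => (σ a).snd, by simp⟩, fun a b => by simp⟩, fun a b => ?_, fun i => ?_⟩
  · show (σ (a * b)).snd = a * (σ b).snd + (σ a).snd * b
    rw [map_mul, TrivSqZeroExt.snd_mul, hf, hf]
    simp
  · show (σ (x i)).snd = δ i
    have := hσ2 ⟨x i, Algebra.subset_adjoin ⟨i, rfl⟩⟩
    have h5 : σ (x i) = φ ⟨x i, Algebra.subset_adjoin ⟨i, rfl⟩⟩ := this
    rw [h5, hφ]
    simp

/-- A derivation of the real field with prescribed values on an algebraically independent
family. -/
theorem exists_der {J : Type} (b : J → ℝ) (hb : AlgebraicIndependent ℚ b) (δ : J → ℝ) :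
    ∃ D : ℝ →+ ℝ, (∀ a b, D (a * b) = a * D b + D a * b) ∧ ∀ j, D (b j) = δ j := by
  classical
  obtain ⟨t, hst, ht⟩ := exists_isTranscendenceBasis_superset (R := ℚ) (s := Set.range b)
    hb.to_subtype_range
  obtain ⟨D, hD1, hD2⟩ := exists_der_basis _ ht fun i => Function.extend b δ 0 i.1
  refine ⟨D, hD1, fun j => ?_⟩
  have := hD2 ⟨b j, hst ⟨j, rfl⟩⟩
  rw [this]
  exact hb.injective.extend_apply δ 0 j

end Pool.Agent.H288Z.Der
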