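import Pool.Agent.H288Z.Der.Vec
import Pool.Agent.H288Z.MG.Dual
import Pool.Agent.Helper69.Dual

set_option autoImplicit false
set_option linter.unusedSectionVars false
set_option linter.style.haveILetI false

/-!
The group and its properties.
-/

namespace Pool.Agent.H288Z.Der

open Filter Topology

/-- The coordinatewise exponential. -/
noncomputable def ex (v : Om → ℝ) : Om → Circle := fun i => e (v i)

theorem ex_cont : Continuous ex :=
  continuous_pi fun i => e_cont.comp (continuous_apply i)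

theorem e_int_mul (n : ℤ) (t : ℝ) : e (n * t) = e t ^ n := by
  rw [e, e, ← Circle.exp_zsmul]
  congr 1
  rw [zsmul_eq_mul]
  ring

theorem prod_e (h : Om →₀ ℤ) (v : Om → ℝ) :
    (h.prod fun i n => ex v i ^ n) = e (h.sum fun i n => n * v i) := by
  induction h using Finsupp.induction_linear with
  | zero => simp [e_zero]
  | add f g hf hg =>
    rw [Finsupp.prod_add_index' (fun i => zpow_zero _) (fun i m n => zpow_add _ _ _),
      Finsupp.sum_add_index' (fun i => by simp) (fun i m n => by push_cast; ring), e_add, hf, hg]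
  | single i n =>
    rw [Finsupp.prod_single_index (zpow_zero _), Finsupp.sum_single_index (by simp), e_int_mul]
    rfl

theorem kron {D : ℝ →+ ℝ} (hD : D 1 = 0) (v : Om → ℝ) (t : ℝ) :
    ex (fun i => t * D (v i)) ∈ closure (Subgroup.zpowers (ex v) : Set (Om → Circle)) := by
  by_contra hcon
  obtain ⟨χ, hχ1, hχ2⟩ := MG.exists_char_closed (Subgroup.zpowers (ex v)).topologicalClosure
    (Subgroup.isClosed_topologicalClosure _) hcon
  obtain ⟨h, hh⟩ := Helper69.Dual.exists_prod_of_inducing (MonoidHom.id (Om → Circle))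
    IsInducing.id χ
  have h1 := hχ1 (ex v) (Subgroup.le_topologicalClosure _ (Subgroup.mem_zpowers _))
  rw [hh] at h1 hχ2
  apply hχ2
  have h2 := prod_e h v
  have h3 := prod_e h fun i => t * D (v i)
  simp only [MonoidHom.id_apply] at h1 ⊢
  rw [h2] at h1
  obtain ⟨m, hm⟩ := e_eq_one h1
  have h4 : (h.sum fun i n => n * (t * D (v i))) = t * D (h.sum fun i n => n * v i) := by
    rw [Finsupp.sum, Finsupp.sum, map_sum, Finset.mul_sum]
    refine Finset.sum_congr rfl fun i _ => ?_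
    rw [← zsmul_eq_mul (v i), map_zsmul, zsmul_eq_mul]
    ring
  have h5 : D (m : ℝ) = 0 := by
    rw [← mul_one (m : ℝ), ← zsmul_eq_mul, map_zsmul, hD, smul_zero]
  rw [h3, h4, hm, h5, mul_zero, e_zero]

/-- The group. -/
noncomputable def Grp (D : ℝ →+ ℝ) : Subgroup (Om → Circle) where
  carrier := {x | ∃ c, ex (Phi D c) = x}
  mul_mem' := by
    rintro _ _ ⟨c, rfl⟩ ⟨c', rfl⟩
    exact ⟨c + c', funext fun i => by simp only [ex, map_add, Pi.add_apply, e_add, Pi.mul_apply]⟩
  one_mem' := ⟨0, funext fun i => by simp only [ex, map_zero, Pi.zero_apply, e_zero, Pi.one_apply]⟩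
  inv_mem' := by
    rintro _ ⟨c, rfl⟩
    exact ⟨-c, funext fun i => by simp only [ex, map_neg, Pi.neg_apply, e_neg, Pi.inv_apply]⟩

variable {D : ℝ →+ ℝ}

theorem full (D : ℝ →+ ℝ) {S : Set Om} (hS : S.Countable) (z : Om → Circle) :
    ∃ g : Grp D, ∀ i ∈ S, g.1 i = z i := by
  choose Y hY using fun i => e_surj (z i)
  obtain ⟨α, hα⟩ := row_univ hS Y
  refine ⟨⟨_, Finsupp.single (α, 0) 1, rfl⟩, fun i hi => ?_⟩
  show e (Phi D _ i) = z i
  rw [Phi_single, one_mul, w, Function.iterate_zero_apply, hα i hi, hY]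

theorem exists_fin {x : Om → Circle} {N : Set (Om → Circle)} (hN : N ∈ 𝓝 x) :
    ∃ I : Set Om, I.Finite ∧ ∀ y, (∀ i ∈ I, y i = x i) → y ∈ N := by
  rw [nhds_pi, Filter.mem_pi] at hN
  obtain ⟨I, hI, t, ht, hsub⟩ := hN
  exact ⟨I, hI, fun y hy => hsub fun i hi => by rw [hy i hi]; exact mem_of_mem_nhds (ht i)⟩

theorem exists_fin' {x : Grp D} {N : Set (Grp D)} (hN : N ∈ 𝓝 x) :
    ∃ I : Set Om, I.Finite ∧ ∀ y : Grp D, (∀ i ∈ I, y.1 i = x.1 i) → y ∈ N := by
  obtain ⟨M, hM, hsub⟩ := (mem_nhds_subtype _ _ _).mp hN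
  obtain ⟨I, hI, h⟩ := exists_fin hM
  exact ⟨I, hI, fun y hy => hsub (h y.1 hy)⟩

theorem pseudocompact (D : ℝ →+ ℝ) (f : Grp D → ℝ) (hf : Continuous f) :
    ∃ C, ∀ x, |f x| ≤ C := by
  classical
  by_contra hcon
  push Not at hcon
  choose x hx using fun n : ℕ => hcon n
  have h1 : ∀ n : ℕ, ∃ I : Set Om, I.Finite ∧
      ∀ y : Grp D, (∀ i ∈ I, y.1 i = (x n).1 i) → (n : ℝ) < |f y| := fun n =>
    exists_fin' ((isOpen_lt continuous_const hf.abs).mem_nhds (hx n))
  choose I hI1 hI2 using h1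
  have hS : (⋃ n, I n).Countable := Set.countable_iUnion fun n => (hI1 n).countable
  obtain ⟨z, hz⟩ := exists_clusterPt_of_compactSpace (map (fun n => (x n).1) atTop)
  obtain ⟨g, hg⟩ := full D hS z
  let T : (Om → Circle) → (Om → Circle) := fun y => (⋃ n, I n).piecewise y g.1
  have hT : Continuous T := by
    refine continuous_pi fun i => ?_
    by_cases hi : i ∈ ⋃ n, I n
    · simp only [T, Set.piecewise_eq_of_mem _ _ _ hi]
      exact continuous_apply i
    · simp only [T, Set.piecewise_eq_of_notMem _ _ _ hi]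
      exact continuous_const
  have hTz : T z = g.1 := by
    funext i
    by_cases hi : i ∈ ⋃ n, I n
    · simp only [T, Set.piecewise_eq_of_mem _ _ _ hi]
      exact (hg i hi).symm
    · simp only [T, Set.piecewise_eq_of_notMem _ _ _ hi]
  have h2 : {y : Grp D | |f y| < |f g| + 1} ∈ 𝓝 g :=
    (isOpen_lt hf.abs continuous_const).mem_nhds (lt_add_one |f g|)
  obtain ⟨M, hM, hsub⟩ := (mem_nhds_subtype _ _ _).mp h2
  have h3 : T ⁻¹' interior M ∈ 𝓝 z := by
    apply hT.continuousAt.preimage_mem_nhds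
    rw [hTz]
    exact interior_mem_nhds.mpr hM
  have h4 : ∃ᶠ n in atTop, (x n).1 ∈ T ⁻¹' interior M :=
    (mapClusterPt_iff_frequently.mp hz) _ h3
  obtain ⟨N, hN⟩ := exists_nat_ge (|f g| + 1)
  obtain ⟨n, hn1, hn2⟩ := (h4.and_eventually (eventually_ge_atTop N)).exists
  obtain ⟨J, hJ1, hJ2⟩ := exists_fin (mem_interior_iff_mem_nhds.mp hn1)
  obtain ⟨g', hg'⟩ := full D (hS.union hJ1.countable) (T (x n).1)
  have h5 : |f g'| < |f g| + 1 := hsub (hJ2 g'.1 fun i hi => hg' i (Or.inr hi))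
  have h6 : (n : ℝ) < |f g'| := hI2 n g' fun i hi => by
    have hi' : i ∈ ⋃ n, I n := Set.mem_iUnion.mpr ⟨n, hi⟩
    rw [hg' i (Or.inl hi')]
    simp only [T, Set.piecewise_eq_of_mem _ _ _ hi']
  have h7 : (N : ℝ) ≤ n := by exact_mod_cast hn2
  linarith

theorem not_metrizable (D : ℝ →+ ℝ) : ¬ TopologicalSpace.MetrizableSpace (Grp D) := by
  classical
  intro hm
  obtain ⟨N, hN⟩ := (𝓝 (1 : Grp D)).exists_antitone_basis
  choose I hI1 hI2 using fun n => exists_fin' (hN.mem n)
  have hS : (⋃ n, I n).Countable := Set.countable_iUnion fun n => (hI1 n).countable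
  obtain ⟨i₀, hi₀⟩ := exists_not_mem hS
  obtain ⟨g, hg⟩ := full D (hS.insert i₀) (Function.update 1 i₀ (e (1 / 2)))
  have h1 : ∀ n, g ∈ N n := fun n => hI2 n g fun i hi => by
    have hi' : i ∈ ⋃ n, I n := Set.mem_iUnion.mpr ⟨n, hi⟩
    have hne : i ≠ i₀ := fun h => hi₀ (h ▸ hi')
    rw [hg i (Or.inr hi'), Function.update_of_ne hne]
    rfl
  have h2 : g ≠ 1 := by
    intro h
    have := hg i₀ (Or.inl rfl)
    rw [Function.update_self, h] at this
    exact e_half this.symm
  obtain ⟨n, hn⟩ := hN.mem_iff.mp (compl_singleton_mem_nhds h2.symm)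
  exact hn (h1 n) rfl

theorem conv_circle (z : ℕ → Circle)
    (h : ∀ U ∈ 𝓝 (1 : Circle), ∃ N, ∀ m ≥ N, ∀ n ≥ N, z m / z n ∈ U) : Conv z := by
  refine cauchySeq_tendsto_of_complete (Metric.cauchySeq_iff.mpr fun ε hε => ?_)
  obtain ⟨N, hN⟩ := h _ (Metric.ball_mem_nhds 1 hε)
  refine ⟨N, fun m hm n hn => ?_⟩
  have h1 : dist (z m / z n) 1 < ε := hN m hm n hn
  have h2 : dist (z m) (z n) = dist (z m / z n) 1 := by
    show dist (z m : ℂ) (z n : ℂ) = dist ((z m / z n : Circle) : ℂ) ((1 : Circle) : ℂ)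
    rw [dist_eq_norm, dist_eq_norm, Circle.coe_div, Circle.coe_one,
      div_sub_one (Circle.coe_ne_zero _), norm_div, Circle.norm_coe, div_one]
  rwa [h2]

theorem seq_complete (hD : Good D) (x : ℕ → Grp D)
    (h : ∀ U ∈ 𝓝 (1 : Grp D), ∃ N, ∀ m ≥ N, ∀ n ≥ N, x m / x n ∈ U) :
    ∃ a, Tendsto x atTop (𝓝 a) := by
  choose c hc using fun n => (x n).2
  have h1 : ∀ i, Conv fun n => e (Phi D (c n) i) := by
    intro i
    have h2 : Continuous fun g : Grp D => g.1 i := (continuous_apply i).comp continuous_subtype_val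
    have h3 := conv_circle (fun n => (x n).1 i) fun U hU =>
      h ((fun g : Grp D => g.1 i) ⁻¹' U) (h2.continuousAt.preimage_mem_nhds hU)
    simp only [← hc] at h3
    exact h3
  obtain ⟨c₀, hc₀⟩ := exists_lim hD c h1
  refine ⟨⟨_, c₀, rfl⟩, tendsto_subtype_rng.mpr ?_⟩
  exact ((ex_cont.tendsto _).comp hc₀).congr hc

theorem eq_one_of_td (hD : Good D) (H : Subgroup (Grp D)) (hH : IsClosed (H : Set (Grp D)))
    [TotallyDisconnectedSpace H] {x : Grp D} (hx : x ∈ H) : x = 1 := by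
  obtain ⟨c, hc⟩ := x.2
  let γ : ℝ → Grp D := fun t => ⟨_, t • dc D c, rfl⟩
  have hγ : ∀ t, (γ t).1 = ex fun i => t * D (Phi D c i) := by
    intro t
    funext i
    show e (Phi D (t • dc D c) i) = e (t * D (Phi D c i))
    rw [map_smul, D_Phi hD]
    rfl
  have hγc : Continuous γ := by
    refine continuous_induced_rng.mpr ?_
    have : (Subtype.val ∘ γ) = fun t => ex fun i => t * D (Phi D c i) := funext hγ
    rw [this]
    exact ex_cont.comp (by fun_prop)
  have hγH : ∀ t, γ t ∈ H := by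
    intro t
    have h1 : γ t ∈ closure (H : Set (Grp D)) := by
      rw [closure_subtype, hγ]
      refine closure_mono ?_ (kron (der_one hD.leib) (Phi D c) t)
      rintro _ ⟨n, rfl⟩
      refine ⟨x ^ n, H.zpow_mem hx n, ?_⟩
      rw [hc]
      rfl
    rwa [hH.closure_eq] at h1
  have h2 : ∀ t, γ t = γ 0 := fun t => congrArg Subtype.val
    (TotallyDisconnectedSpace.eq_of_continuous (fun t => (⟨γ t, hγH t⟩ : H))
      (hγc.subtype_mk _) t 0)
  have h3 : Phi D (dc D c) = 0 := by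
    funext i
    by_contra hne
    rw [← D_Phi hD] at hne
    have hne' : D (Phi D c i) ≠ 0 := hne
    have h4 := congrFun (congrArg Subtype.val (h2 (1 / 2 / D (Phi D c i)))) i
    rw [hγ, hγ] at h4
    simp only [ex] at h4
    rw [div_mul_cancel₀ _ hne', zero_mul, e_zero] at h4
    exact e_half h4
  have h5 : c = 0 := dc_eq_zero (Phi_inj hD h3)
  apply Subtype.ext
  rw [← hc, h5]
  funext i
  simp only [ex, map_zero, Pi.zero_apply, e_zero]
  rfl

theorem propZ (hD : Good D) (H : Subgroup (Grp D)) (hH : IsClosed (H : Set (Grp D)))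
    (B : Set (Set H)) (hB : TopologicalSpace.IsTopologicalBasis B) (hB' : ∀ s ∈ B, IsClopen s) :
    DiscreteTopology H := by
  haveI : TotallySeparatedSpace H := totallySeparatedSpace_of_t0_of_basis_clopen
    (hB.of_isOpen_of_subset (fun u hu => hu.isOpen) hB')
  haveI : Subsingleton H := ⟨fun a b => Subtype.ext
    ((eq_one_of_td hD H hH a.2).trans (eq_one_of_td hD H hH b.2).symm)⟩
  infer_instance

end Pool.Agent.H288Z.Der
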