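import Mathlib

set_option autoImplicit false
set_option linter.unusedSectionVars false
set_option linter.style.haveILetI false

/-!
A real matrix whose rows and columns realise all values on countable sets, and an estimate for
sequences of finitely supported coefficient vectors.
-/

namespace Pool.Agent.H288Z.Der

open Filter Topology

/-- Countably branching well founded trees labelled by real sequences. -/
inductive Om : Type
  | leaf : Om
  | node : (ℕ → Om) → (ℕ → ℝ) → Om

/-- The child relation. -/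
def Child (i : Om) : Om → Prop
  | Om.leaf => False
  | Om.node a _ => ∃ n, a n = i

open Classical in
/-- The label that a tree gives to a child. -/
noncomputable def val (i : Om) : Om → ℝ
  | Om.leaf => 0
  | Om.node a y => if h : ∃ n, a n = i then y h.choose else 0

open Classical in
/-- The matrix. -/
noncomputable def Mx (α i : Om) : ℝ := if Child i α then val i α else val α i

theorem no_two (α : Om) : ∀ i, Child i α → ¬ Child α i := by
  induction α with
  | leaf => intro i h; exact h.elim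
  | node a y ih =>
    rintro i ⟨n, rfl⟩ h
    exact ih n _ h ⟨n, rfl⟩

theorem exists_node {S : Set Om} (hS : S.Countable) (Y : Om → ℝ) :
    ∃ α, ∀ i ∈ S, Child i α ∧ val i α = Y i := by
  haveI : Nonempty Om := ⟨Om.leaf⟩
  obtain ⟨a, ha⟩ := Set.countable_iff_exists_subset_range.mp hS
  refine ⟨Om.node a fun n => Y (a n), fun i hi => ?_⟩
  have h : ∃ n, a n = i := ha hi
  refine ⟨h, ?_⟩
  show (open Classical in if h : ∃ n, a n = i then Y (a h.choose) else 0) = Y i
  rw [dif_pos h, h.choose_spec]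

theorem row_univ {S : Set Om} (hS : S.Countable) (Y : Om → ℝ) :
    ∃ α, ∀ i ∈ S, Mx α i = Y i := by
  obtain ⟨α, hα⟩ := exists_node hS Y
  exact ⟨α, fun i hi => by rw [Mx, if_pos (hα i hi).1, (hα i hi).2]⟩

theorem col_univ {S : Set Om} (hS : S.Countable) (Y : Om → ℝ) :
    ∃ i, ∀ α ∈ S, Mx α i = Y α := by
  obtain ⟨i, hi⟩ := exists_node hS Y
  exact ⟨i, fun α hα => by rw [Mx, if_neg (no_two i α (hi α hα).1), (hi α hα).2]⟩

theorem exists_not_mem {S : Set Om} (hS : S.Countable) : ∃ i, i ∉ S := by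
  by_contra hcon
  push Not at hcon
  have h1 : Function.Injective fun t : ℝ => Om.node (fun _ => Om.leaf) fun _ => t := by
    intro s t h
    exact congrFun (Om.node.inj h).2 0
  have h2 := hS.preimage h1
  have h3 : (fun t : ℝ => Om.node (fun _ => Om.leaf) fun _ => t) ⁻¹' S = Set.univ :=
    Set.eq_univ_of_forall fun t => hcon _
  rw [h3] at h2
  exact Set.not_countable_univ h2

section Est

variable {P : Type}

/-- The pairing of a finitely supported vector with an arbitrary vector. -/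
noncomputable def pair (c : P →₀ ℝ) (y : P → ℝ) : ℝ := c.sum fun p a => a * y p

/-- One step estimate: a large value at one point of the support dominates. -/
theorem step_est (c : P →₀ ℝ) {p : P} (hp : p ∈ c.support) (s : P → ℕ) (B : ℝ) :
    ∃ N : ℕ, ∀ y : P → ℝ, (∀ q ∈ c.support, q ≠ p → y q ∈ Set.Icc (s q : ℝ) (s q + 1)) →
      (N : ℝ) ≤ y p → B ≤ |pair c y| := by
  classical
  have hc : 0 < |c p| := abs_pos.mpr (Finsupp.mem_support_iff.mp hp)
  obtain ⟨N, hN⟩ := exists_nat_ge
    ((B + ∑ q ∈ c.support.erase p, |c q| * (s q + 1)) / |c p|)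
  refine ⟨N, fun y hy hyp => ?_⟩
  have h1 : pair c y = c p * y p + ∑ q ∈ c.support.erase p, c q * y q := by
    rw [pair, Finsupp.sum, ← Finset.add_sum_erase _ _ hp]
  have h2 : |∑ q ∈ c.support.erase p, c q * y q| ≤
      ∑ q ∈ c.support.erase p, |c q| * (s q + 1) := by
    refine (Finset.abs_sum_le_sum_abs _ _).trans (Finset.sum_le_sum fun q hq => ?_)
    rw [abs_mul]
    have h3 := hy q (Finset.mem_of_mem_erase hq) (Finset.ne_of_mem_erase hq)
    have h4 : (0 : ℝ) ≤ s q := Nat.cast_nonneg _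
    refine mul_le_mul_of_nonneg_left ?_ (abs_nonneg _)
    rw [abs_of_nonneg (h4.trans h3.1)]
    exact h3.2
  rw [div_le_iff₀ hc] at hN
  have h5 : (N : ℝ) * |c p| ≤ |c p * y p| := by
    rw [abs_mul, mul_comm]
    exact mul_le_mul_of_nonneg_left (hyp.trans (le_abs_self _)) hc.le
  have h6 := abs_sub_abs_le_abs_add (c p * y p) (∑ q ∈ c.support.erase p, c q * y q)
  rw [h1]
  linarith

theorem single_est (c : P →₀ ℝ) (hc : c ≠ 0) :
    ∃ s : P → ℕ, ∀ y : P → ℝ, (∀ q ∈ c.support, y q ∈ Set.Icc (s q : ℝ) (s q + 1)) →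
      pair c y ≠ 0 := by
  classical
  obtain ⟨p, hp⟩ := Finsupp.support_nonempty_iff.mpr hc
  obtain ⟨N, hN⟩ := step_est c hp (fun _ => 0) 1
  refine ⟨Function.update (fun _ => 0) p N, fun y hy h0 => ?_⟩
  have h1 := hN y (fun q hq hqp => by
    have := hy q hq
    rwa [Function.update_of_ne hqp] at this) (by
    have := (hy p hp).1
    rwa [Function.update_self] at this)
  rw [h0, abs_zero] at h1
  linarith

theorem seq_est (c : ℕ → P →₀ ℝ) (hc : ∀ F : Finset P, ∃ n, ¬ (c n).support ⊆ F) :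
    ∃ s : P → ℕ, ∀ y : P → ℝ,
      (∀ n, ∀ q ∈ (c n).support, y q ∈ Set.Icc (s q : ℝ) (s q + 1)) →
      ∀ B : ℝ, ∃ n, B ≤ |pair (c n) y| := by
  classical
  have step : ∀ (j : ℕ) (x : Finset P × (P → ℕ)), ∃ x' : Finset P × (P → ℕ), x.1 ⊆ x'.1 ∧
      (∀ q ∈ x.1, x'.2 q = x.2 q) ∧ ∃ n, (c n).support ⊆ x'.1 ∧ ∀ y : P → ℝ,
        (∀ q ∈ (c n).support, y q ∈ Set.Icc (x'.2 q : ℝ) (x'.2 q + 1)) →
        (j : ℝ) ≤ |pair (c n) y| := by
    intro j x
    obtain ⟨n, hn⟩ := hc x.1
    obtain ⟨p, hp1, hp2⟩ := Finset.not_subset.mp hn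
    obtain ⟨N, hN⟩ := step_est (c n) hp1 x.2 j
    refine ⟨(x.1 ∪ (c n).support, Function.update x.2 p N), Finset.subset_union_left,
      fun q hq => Function.update_of_ne (fun h : q = p => hp2 (h ▸ hq)) _ _, n,
      Finset.subset_union_right, fun y hy => hN y (fun q hq hqp => ?_) ?_⟩
    · have := hy q hq
      simp only [Function.update_of_ne hqp] at this
      exact this
    · have := (hy p hp1).1
      simp only [Function.update_self] at this
      exact this
  choose F hF1 hF2 hF3 using step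
  let x : ℕ → Finset P × (P → ℕ) := fun j => Nat.rec (∅, fun _ => 0) F j
  have hx : ∀ j, x (j + 1) = F j (x j) := fun j => rfl
  have hmono : ∀ j k, j ≤ k → (x j).1 ⊆ (x k).1 ∧ ∀ q ∈ (x j).1, (x k).2 q = (x j).2 q := by
    intro j k hjk
    induction k, hjk using Nat.le_induction with
    | base => exact ⟨subset_rfl, fun _ _ => rfl⟩
    | succ k _ ih =>
      refine ⟨ih.1.trans (hF1 k (x k)), fun q hq => ?_⟩
      rw [hx, hF2 k (x k) q (ih.1 hq), ih.2 q hq]
  let s : P → ℕ := fun q => if h : ∃ j, q ∈ (x j).1 then (x h.choose).2 q else 0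
  have hs : ∀ j, ∀ q ∈ (x j).1, s q = (x j).2 q := by
    intro j q hq
    have h : ∃ j, q ∈ (x j).1 := ⟨j, hq⟩
    show (if h : ∃ j, q ∈ (x j).1 then (x h.choose).2 q else 0) = _
    rw [dif_pos h]
    rcases le_total j h.choose with h1 | h1
    · exact (hmono _ _ h1).2 q hq
    · exact ((hmono _ _ h1).2 q h.choose_spec).symm
  refine ⟨s, fun y hy B => ?_⟩
  obtain ⟨j, hj⟩ := exists_nat_ge B
  obtain ⟨n, hn1, hn2⟩ := hF3 j (x j)
  refine ⟨n, hj.trans (hn2 y fun q hq => ?_)⟩
  have := hy n q hq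
  rwa [hs (j + 1) q (hn1 hq)] at this

end Est

end Pool.Agent.H288Z.Der
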