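import Pool.Agent.H288Z.Der.Ext

set_option autoImplicit false
set_option linter.unusedSectionVars false
set_option linter.style.haveILetI false

/-!
A derivation of the real field with free jets and with many constants.
-/

namespace Pool.Agent.H288Z.Der

open Cardinal Filter Topology

/-- The map `t ↦ exp (2 π i t)`. -/
noncomputable def e (t : ℝ) : Circle := Circle.exp (2 * Real.pi * t)

theorem e_add (s t : ℝ) : e (s + t) = e s * e t := by
  rw [e, e, e, mul_add, Circle.exp_add]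

theorem e_zero : e 0 = 1 := by
  rw [e, mul_zero, Circle.exp_zero]

theorem e_neg (t : ℝ) : e (-t) = (e t)⁻¹ := by
  rw [e, e, mul_neg, Circle.exp_neg]

theorem e_sub (s t : ℝ) : e (s - t) = e s / e t := by
  rw [sub_eq_add_neg, e_add, e_neg, div_eq_mul_inv]

theorem e_cont : Continuous e := by
  unfold e
  fun_prop

theorem e_surj (z : Circle) : ∃ t, e t = z := by
  obtain ⟨t, rfl⟩ := Circle.exp_surjective z
  refine ⟨t / (2 * Real.pi), ?_⟩
  rw [e, mul_div_cancel₀]
  positivity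

theorem e_eq_one {t : ℝ} (h : e t = 1) : ∃ n : ℤ, t = n := by
  obtain ⟨n, hn⟩ := Circle.exp_eq_one.mp h
  refine ⟨n, ?_⟩
  have hp : (2 * Real.pi) ≠ 0 := by positivity
  apply mul_left_cancel₀ hp
  rw [hn, mul_comm]

theorem e_half : e (1 / 2) ≠ 1 := by
  intro h
  obtain ⟨n, hn⟩ := e_eq_one h
  have h2 : (1 : ℝ) = ((2 * n : ℤ) : ℝ) := by push_cast; linarith
  have h3 : (1 : ℤ) = 2 * n := by exact_mod_cast h2
  omega

theorem e_re (t : ℝ) : (e t : ℂ).re = Real.cos (2 * Real.pi * t) := by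
  rw [e, Circle.coe_exp, Complex.exp_ofReal_mul_I_re]

theorem e_im (t : ℝ) : (e t : ℂ).im = Real.sin (2 * Real.pi * t) := by
  rw [e, Circle.coe_exp, Complex.exp_ofReal_mul_I_im]

/-- The sequence converges. -/
def Conv {X : Type} [TopologicalSpace X] (y : ℕ → X) : Prop := ∃ a, Tendsto y atTop (𝓝 a)

theorem bdd_of_all (y : ℕ → ℝ) (h : ∀ c : ℝ, Conv fun n => e (c * y n)) :
    ∃ B, ∀ n, |y n| ≤ B := by
  by_contra hcon
  push Not at hcon
  have h1 : ∀ j : ℕ, ∃ n, j ≤ n ∧ (j : ℝ) ≤ |y n - y j| := by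
    intro j
    obtain ⟨n, hn⟩ := hcon (j + |y j| + ∑ m ∈ Finset.range j, |y m|)
    have h0 : 0 ≤ ∑ m ∈ Finset.range j, |y m| := Finset.sum_nonneg fun _ _ => abs_nonneg _
    refine ⟨n, ?_, ?_⟩
    · by_contra hlt
      have h2 : |y n| ≤ ∑ m ∈ Finset.range j, |y m| :=
        Finset.single_le_sum (f := fun m => |y m|) (fun _ _ => abs_nonneg _)
          (Finset.mem_range.mpr (not_le.mp hlt))
      have h3 : (0 : ℝ) ≤ j := Nat.cast_nonneg j
      have h4 := abs_nonneg (y j)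
      linarith
    · have h2 := abs_sub_abs_le_abs_sub (y n) (y j)
      linarith
  choose n hn1 hn2 using h1
  have hn : Tendsto n atTop atTop := tendsto_atTop_mono hn1 tendsto_id
  let d : ℕ → ℝ := fun j => y (n j) - y j
  have h2 : ∀ c : ℝ, Tendsto (fun j => Real.cos (2 * Real.pi * d j * c)) atTop (𝓝 1) := by
    intro c
    obtain ⟨a, ha⟩ := h c
    have h3 : Tendsto (fun j => e (c * y (n j)) / e (c * y j)) atTop (𝓝 (a / a)) :=
      (ha.comp hn).div' ha
    rw [div_self'] at h3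
    have h4 : Continuous fun z : Circle => (z : ℂ).re := by fun_prop
    have h5 := (h4.tendsto 1).comp h3
    simp only [Circle.coe_one, Complex.one_re] at h5
    refine h5.congr fun j => ?_
    show ((e (c * y (n j)) / e (c * y j) : Circle) : ℂ).re = _
    rw [← e_sub, e_re]
    congr 1
    simp only [d]
    ring
  have h3 : Tendsto (fun j => ∫ c in (0 : ℝ)..1, Real.cos (2 * Real.pi * d j * c)) atTop
      (𝓝 (∫ _ in (0 : ℝ)..1, (1 : ℝ))) := by
    refine intervalIntegral.tendsto_integral_filter_of_dominated_convergence (fun _ => 1) ?_ ?_ ?_ ?_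
    · exact Eventually.of_forall fun j => Continuous.aestronglyMeasurable (by fun_prop)
    · exact Eventually.of_forall fun j => Eventually.of_forall fun c _ => Real.abs_cos_le_one _
    · exact intervalIntegrable_const
    · exact Eventually.of_forall fun c _ => h2 c
  simp only [intervalIntegral.integral_const, sub_zero, smul_eq_mul, mul_one] at h3
  have h4 := h3.eventually (lt_mem_nhds (show (1 / 2 : ℝ) < 1 by norm_num))
  obtain ⟨j, hj1, hj2⟩ := (h4.and (eventually_ge_atTop 1)).exists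
  have hd : 1 ≤ |d j| := le_trans (by exact_mod_cast hj2) (hn2 j)
  have hpi := Real.pi_gt_three
  have hd2 : 2 < |2 * Real.pi * d j| := by
    rw [abs_mul, abs_of_pos (by positivity : 0 < 2 * Real.pi)]
    nlinarith
  have hne : 2 * Real.pi * d j ≠ 0 := by
    intro h0
    rw [h0, abs_zero] at hd2
    linarith
  rw [intervalIntegral.integral_comp_mul_left (fun x => Real.cos x) hne, integral_cos] at hj1
  simp only [mul_zero, Real.sin_zero, sub_zero, mul_one, smul_eq_mul] at hj1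
  have h5 : |(2 * Real.pi * d j)⁻¹ * Real.sin (2 * Real.pi * d j)| ≤ 1 / 2 := by
    rw [abs_mul, abs_inv]
    have h6 := Real.abs_sin_le_one (2 * Real.pi * d j)
    have h7 : |2 * Real.pi * d j|⁻¹ ≤ 1 / 2 := by
      rw [one_div]
      exact inv_anti₀ (by norm_num) hd2.le
    have h8 : 0 ≤ |2 * Real.pi * d j|⁻¹ := by positivity
    nlinarith [abs_nonneg (Real.sin (2 * Real.pi * d j))]
  have h6 := le_abs_self ((2 * Real.pi * d j)⁻¹ * Real.sin (2 * Real.pi * d j))
  linarith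

theorem conv_of_bdd (y : ℕ → ℝ) {B : ℝ} (hB : ∀ n, |y n| ≤ B)
    (h : ∀ q : ℚ, Conv fun n => e (q * y n)) : Conv y := by
  obtain ⟨N, hN⟩ := exists_nat_gt B
  have hN0 : (0 : ℝ) < N := lt_of_le_of_lt ((abs_nonneg _).trans (hB 0)) hN
  obtain ⟨a, ha⟩ := h (1 / (4 * N))
  have hpi := Real.pi_pos
  have h4 : Continuous fun z : Circle => Real.arcsin (z : ℂ).im * (2 * N / Real.pi) := by
    have := Real.continuous_arcsin
    fun_prop
  refine ⟨_, ((h4.tendsto a).comp ha).congr fun n => ?_⟩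
  show Real.arcsin (e _ : ℂ).im * (2 * N / Real.pi) = y n
  have h5 := abs_le.mp ((hB n).trans hN.le)
  have h6 : 2 * Real.pi * (((1 / (4 * N) : ℚ) : ℝ) * y n) = Real.pi / 2 * (y n / N) := by
    push_cast
    field_simp
    ring
  have h7 : -1 ≤ y n / N := by rw [le_div_iff₀ hN0]; linarith
  have h8 : y n / N ≤ 1 := by rw [div_le_iff₀ hN0]; linarith
  rw [e_im, h6, Real.arcsin_sin (by nlinarith) (by nlinarith)]
  field_simp

theorem card_bad (y : ℕ → ℝ) (hy : ¬ ∃ B, ∀ n, |y n| ≤ B) :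
    #{c : ℝ | ¬ Conv fun n => e (c * y n)} = 𝔠 := by
  have h1 : ∃ c₀ : ℝ, ¬ Conv fun n => e (c₀ * y n) := by
    by_contra hcon
    push Not at hcon
    exact hy (bdd_of_all y hcon)
  obtain ⟨c₀, hc₀⟩ := h1
  set S : Set ℝ := {c : ℝ | ¬ Conv fun n => e (c * y n)} with hS
  have h2 : #(Sᶜ : Set ℝ) ≤ #S := by
    refine mk_le_of_injective (f := fun x : (Sᶜ : Set ℝ) => ⟨c₀ + x.1, ?_⟩) ?_
    · rintro ⟨a, ha⟩
      obtain ⟨b, hb⟩ : Conv fun n => e (x.1 * y n) := not_not.mp x.2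
      refine hc₀ ⟨a / b, (ha.div' hb).congr fun n => ?_⟩
      rw [← e_sub]
      congr 1
      ring
    · intro a b h
      exact Subtype.ext (add_left_cancel (Subtype.mk.inj h))
  apply le_antisymm ((mk_set_le S).trans mk_real.le)
  by_contra hlt
  have h3 : #S < 𝔠 := not_le.mp hlt
  have h4 := add_lt_of_lt aleph0_le_continuum h3 (lt_of_le_of_lt h2 h3)
  rw [mk_sum_compl, mk_real] at h4
  exact lt_irrefl _ h4

theorem der_one {D : ℝ →+ ℝ} (hD : ∀ a b, D (a * b) = a * D b + D a * b) : D 1 = 0 := by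
  have := hD 1 1
  simp only [mul_one, one_mul] at this
  linarith

theorem der_rat {D : ℝ →+ ℝ} (hD : ∀ a b, D (a * b) = a * D b + D a * b) (q : ℚ) : D q = 0 := by
  have := map_rat_smul D q (1 : ℝ)
  rw [der_one hD, smul_zero, Rat.smul_one_eq_cast] at this
  exact this

/-- The derivation. -/
theorem exists_D : ∃ D : ℝ →+ ℝ, (∀ a b, D (a * b) = a * D b + D a * b) ∧
    (∀ s : ℕ → ℕ, ∃ r, ∀ k, D^[k] r ∈ Set.Icc (s k : ℝ) (s k + 1)) ∧
    ∀ y : ℕ → ℝ, (∀ c, D c = 0 → Conv fun n => e (c * y n)) → Conv y := by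
  classical
  let P : ((ℕ → ℕ) × ℕ) ⊕ (ℕ → ℝ) → Set ℝ := Sum.elim
    (fun p => Set.Icc (p.1 p.2 : ℝ) (p.1 p.2 + 1))
    (fun y => if ∃ B, ∀ n, |y n| ≤ B then Set.univ else {c : ℝ | ¬ Conv fun n => e (c * y n)})
  have hP : ∀ j, #(P j) = 𝔠 := by
    rintro (p | y)
    · exact mk_Icc_real (by linarith)
    · show #(if ∃ B, ∀ n, |y n| ≤ B then Set.univ else
        {c : ℝ | ¬ Conv fun n => e (c * y n)} : Set ℝ) = 𝔠
      split_ifs with hy
      · rw [mk_univ, mk_real]
      · exact card_bad y hy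
  have hJ : #(((ℕ → ℕ) × ℕ) ⊕ (ℕ → ℝ)) ≤ 𝔠 := by simp [mk_real]
  obtain ⟨b, hb1, hb2⟩ := exists_indep hJ P hP
  obtain ⟨D, hD1, hD2⟩ := exists_der b hb2
    (Sum.elim (fun p => b (Sum.inl (p.1, p.2 + 1))) (fun _ => 0))
  refine ⟨D, hD1, fun s => ⟨b (Sum.inl (s, 0)), fun k => ?_⟩, fun y hy => ?_⟩
  · have h1 : D^[k] (b (Sum.inl (s, 0))) = b (Sum.inl (s, k)) := by
      induction k with
      | zero => rfl
      | succ k ih => rw [Function.iterate_succ_apply', ih, hD2]; rfl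
    rw [h1]
    exact hb1 (Sum.inl (s, k))
  · have h1 : ∃ B, ∀ n, |y n| ≤ B := by
      by_contra hcon
      have h2 : b (Sum.inr y) ∈ (if ∃ B, ∀ n, |y n| ≤ B then Set.univ else
        {c : ℝ | ¬ Conv fun n => e (c * y n)} : Set ℝ) := hb1 (Sum.inr y)
      rw [if_neg hcon] at h2
      exact h2 (hy _ (hD2 _))
    obtain ⟨B, hB⟩ := h1
    exact conv_of_bdd y hB fun q => hy _ (der_rat hD1 q)

end Pool.Agent.H288Z.Der
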