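import Pool.Agent.H288Z.Der.Seq
import Pool.Agent.H288Z.Der.Mat

set_option autoImplicit false
set_option linter.unusedSectionVars false
set_option linter.style.haveILetI false

/-!
The real vector space spanned by the iterated derivatives of the rows of the matrix.
-/

namespace Pool.Agent.H288Z.Der

open Filter Topology

/-- The three properties of the derivation. -/
structure Good (D : ℝ →+ ℝ) : Prop where
  leib : ∀ a b, D (a * b) = a * D b + D a * b
  jet : ∀ s : ℕ → ℕ, ∃ r, ∀ k, D^[k] r ∈ Set.Icc (s k : ℝ) (s k + 1)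
  con : ∀ y : ℕ → ℝ, (∀ c, D c = 0 → Conv fun n => e (c * y n)) → Conv y

theorem exists_good : ∃ D, Good D := by
  obtain ⟨D, h1, h2, h3⟩ := exists_D
  exact ⟨D, h1, h2, h3⟩

/-- The generating vectors. -/
noncomputable def w (D : ℝ →+ ℝ) (p : Om × ℕ) (i : Om) : ℝ := D^[p.2] (Mx p.1 i)

/-- Linear combinations of the generating vectors. -/
noncomputable def Phi (D : ℝ →+ ℝ) : (Om × ℕ →₀ ℝ) →ₗ[ℝ] (Om → ℝ) :=
  Finsupp.linearCombination ℝ (w D)

variable {D : ℝ →+ ℝ}

theorem Phi_apply (c : Om × ℕ →₀ ℝ) (i : Om) : Phi D c i = pair c fun p => w D p i := by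
  simp [Phi, Finsupp.linearCombination_apply, Finsupp.sum, Finset.sum_apply, pair]

theorem Phi_single (p : Om × ℕ) (a : ℝ) (i : Om) :
    Phi D (Finsupp.single p a) i = a * w D p i := by
  simp [Phi]

theorem col_jet (hD : Good D) {S : Set Om} (hS : S.Countable) (s : Om × ℕ → ℕ) :
    ∃ i, ∀ p : Om × ℕ, p.1 ∈ S → w D p i ∈ Set.Icc (s p : ℝ) (s p + 1) := by
  choose r hr using fun α : Om => hD.jet fun k => s (α, k)
  obtain ⟨i, hi⟩ := col_univ hS r
  refine ⟨i, fun p hp => ?_⟩
  rw [w, hi _ hp]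
  exact hr p.1 p.2

theorem Phi_inj (hD : Good D) {c : Om × ℕ →₀ ℝ} (h : Phi D c = 0) : c = 0 := by
  by_contra hc
  obtain ⟨s, hs⟩ := single_est c hc
  obtain ⟨i, hi⟩ := col_jet hD ((c.support.finite_toSet.image Prod.fst).countable) s
  apply hs (fun p => w D p i) fun q hq => hi q ⟨q, hq, rfl⟩
  rw [← Phi_apply, h]
  rfl

/-- The coefficient vector of the derivative. -/
noncomputable def dc (D : ℝ →+ ℝ) (c : Om × ℕ →₀ ℝ) : Om × ℕ →₀ ℝ :=
  c.mapRange D (map_zero D) + c.mapDomain fun p => (p.1, p.2 + 1)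

theorem dc_add (c c' : Om × ℕ →₀ ℝ) : dc D (c + c') = dc D c + dc D c' := by
  rw [dc, dc, dc, Finsupp.mapRange_add (map_add D), Finsupp.mapDomain_add]
  abel

theorem D_Phi (hD : Good D) (c : Om × ℕ →₀ ℝ) (i : Om) : D (Phi D c i) = Phi D (dc D c) i := by
  induction c using Finsupp.induction_linear with
  | zero => simp [dc]
  | add c c' h h' => rw [dc_add, map_add, map_add, Pi.add_apply, Pi.add_apply, map_add, h, h']
  | single p a =>
    rw [dc, Finsupp.mapRange_single, Finsupp.mapDomain_single, map_add, Pi.add_apply, Phi_single,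
      Phi_single, Phi_single, hD.leib, add_comm]
    congr 2
    rw [w, w, Function.iterate_succ_apply']

theorem dc_eq_zero {c : Om × ℕ →₀ ℝ} (h : dc D c = 0) : c = 0 := by
  by_contra hc
  obtain ⟨p, hp, hmax⟩ := Finset.exists_max_image c.support Prod.snd
    (Finsupp.support_nonempty_iff.mpr hc)
  have h1 : c (p.1, p.2 + 1) = 0 := by
    by_contra h2
    have := hmax _ (Finsupp.mem_support_iff.mpr h2)
    simp at this
  have hinj : Function.Injective fun p : Om × ℕ => (p.1, p.2 + 1) := by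
    rintro ⟨a, k⟩ ⟨b, l⟩ h
    simp only [Prod.mk.injEq, add_left_inj] at h
    rw [h.1, h.2]
  have h2 := DFunLike.congr_fun h (p.1, p.2 + 1)
  rw [dc, Finsupp.add_apply, Finsupp.mapRange_apply, h1, map_zero, zero_add,
    Finsupp.mapDomain_apply hinj c p] at h2
  exact Finsupp.mem_support_iff.mp hp h2

theorem iter_mul (hD : Good D) {a : ℝ} (ha : D a = 0) (k : ℕ) (r : ℝ) :
    D^[k] (a * r) = a * D^[k] r := by
  induction k with
  | zero => rfl
  | succ k ih =>
    rw [Function.iterate_succ_apply', Function.iterate_succ_apply', ih, hD.leib, ha, zero_mul,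
      add_zero]

theorem countable_rows (c : ℕ → Om × ℕ →₀ ℝ) :
    (⋃ n, Prod.fst '' ((c n).support : Set (Om × ℕ))).Countable :=
  Set.countable_iUnion fun n => ((c n).support.finite_toSet.image Prod.fst).countable

theorem conv_real (hD : Good D) (c : ℕ → Om × ℕ →₀ ℝ)
    (h : ∀ i, Conv fun n => e (Phi D (c n) i)) (i : Om) : Conv fun n => Phi D (c n) i := by
  refine hD.con _ fun a ha => ?_
  obtain ⟨i', hi'⟩ := col_univ (countable_rows c) fun α => a * Mx α i
  have h1 : ∀ n, Phi D (c n) i' = a * Phi D (c n) i := by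
    intro n
    rw [Phi_apply, Phi_apply, pair, pair, Finsupp.sum, Finsupp.sum, Finset.mul_sum]
    refine Finset.sum_congr rfl fun p hp => ?_
    rw [w, w, hi' p.1 (Set.mem_iUnion.mpr ⟨n, p, hp, rfl⟩), iter_mul hD ha]
    ring
  have h2 := h i'
  simp only [h1] at h2
  exact h2

theorem supp_bdd (hD : Good D) (c : ℕ → Om × ℕ →₀ ℝ) (h : ∀ i, Conv fun n => Phi D (c n) i) :
    ∃ F : Finset (Om × ℕ), ∀ n, (c n).support ⊆ F := by
  by_contra hcon
  push Not at hcon
  obtain ⟨s, hs⟩ := seq_est c hcon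
  obtain ⟨i, hi⟩ := col_jet hD (countable_rows c) s
  obtain ⟨a, ha⟩ := h i
  obtain ⟨B, hB⟩ := ha.abs.bddAbove_range
  obtain ⟨n, hn⟩ := hs (fun p => w D p i)
    (fun n q hq => hi q (Set.mem_iUnion.mpr ⟨n, q, hq, rfl⟩)) (B + 1)
  rw [← Phi_apply] at hn
  have := hB ⟨n, rfl⟩
  linarith

theorem exists_lim (hD : Good D) (c : ℕ → Om × ℕ →₀ ℝ)
    (h : ∀ i, Conv fun n => e (Phi D (c n) i)) :
    ∃ c₀, Tendsto (fun n => Phi D (c n)) atTop (𝓝 (Phi D c₀)) := by
  have h1 := conv_real hD c h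
  obtain ⟨F, hF⟩ := supp_bdd hD c h1
  choose v hv using h1
  have h2 : Tendsto (fun n => Phi D (c n)) atTop (𝓝 v) := tendsto_pi_nhds.mpr hv
  haveI : FiniteDimensional ℝ (Submodule.span ℝ (w D '' (F : Set (Om × ℕ)))) :=
    Module.Finite.span_of_finite ℝ (F.finite_toSet.image _)
  have h3 := Submodule.closed_of_finiteDimensional (Submodule.span ℝ (w D '' (F : Set (Om × ℕ))))
  have h4 : v ∈ Submodule.span ℝ (w D '' (F : Set (Om × ℕ))) := by
    refine h3.mem_of_tendsto h2 (Eventually.of_forall fun n => ?_)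
    rw [Finsupp.span_image_eq_map_linearCombination]
    exact ⟨c n, (Finsupp.mem_supported ℝ _).mpr (Finset.coe_subset.mpr (hF n)), rfl⟩
  rw [Finsupp.span_image_eq_map_linearCombination] at h4
  obtain ⟨c₀, -, rfl⟩ := h4
  exact ⟨c₀, h2⟩

end Pool.Agent.H288Z.Der
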